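import Pool.Agent.H132.GrzMain

set_option autoImplicit false

/-!
# The second Grzegorczyk class is a basis for punctual standardness

Definitions (file `Pool.Agent.H132.GrzDefs`):

* `E2`: the smallest class of functions on the natural numbers (any number `n` of variables, the
  arguments being a vector in `List.Vector ℕ n`) that contains zero, successor, the projections,
  addition and multiplication, and is closed under composition and bounded primitive recursion.
* `PunctualCopy S iota`: `S` is primitive recursive and `iota` is an isomorphism from the natural
  numbers with successor onto the structure with universe the natural numbers and successor `S`.
* `onCopy iota f`: the function `f` read on the copy.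
* `PunctuallyStandard iota`: a function is primitive recursive on the copy iff it is primitive
  recursive (`Nat.Primrec'` of Mathlib).
* `IsBasis F`: every punctual copy on which all members of `F` are primitive recursive is
  punctually standard.
-/

open Pool.Agent.H132.Grz

namespace Pool.Agent.Results.MP_9dcafa_lc.SecondGrzegorczykBasis

/-- The second Grzegorczyk class is a basis for punctual standardness. More precisely there is one
single function `u` of two variables in this class, with values 0 and 1, such that every punctual
copy of the natural numbers with successor on which `u` is primitive recursive is punctually
standard. -/
theorem result :
    IsBasis @E2 ∧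
    ∃ u : List.Vector ℕ 2 → ℕ, E2 u ∧ (∀ v, u v ≤ 1) ∧
      ∀ (S : ℕ → ℕ) (iota : ℕ ≃ ℕ), PunctualCopy S iota →
        Nat.Primrec' (onCopy iota u) → PunctuallyStandard iota :=
  ⟨isBasis_E2, univ, univ_E2, univ_le, fun _ _ h hE => standard_of_univ h hE⟩

end Pool.Agent.Results.MP_9dcafa_lc.SecondGrzegorczykBasis
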